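import Pool.Agent.Work.MP_7cb3ca_co.Fn.LaneM
import Pool.Agent.Work.MP_7cb3ca_co.C3.FastS
import Pool.Agent.Work.MP_7cb3ca_co.I8.K0
import Pool.Agent.Work.MP_7cb3ca_co.I8.K1
import Pool.Agent.Work.MP_7cb3ca_co.I8.K2
import Pool.Agent.Work.MP_7cb3ca_co.I8.K3
import Pool.Agent.Work.MP_7cb3ca_co.I8.K4
import Pool.Agent.Work.MP_7cb3ca_co.I8.K5
import Pool.Agent.Work.MP_7cb3ca_co.I8.K6
import Pool.Agent.Work.MP_7cb3ca_co.I8.K7
import Pool.Agent.Work.MP_7cb3ca_co.I8.K8
import Pool.Agent.Work.MP_7cb3ca_co.I8.K9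
import Pool.Agent.Work.MP_7cb3ca_co.I8.K10
import Pool.Agent.Work.MP_7cb3ca_co.I8.K11
import Pool.Agent.Work.MP_7cb3ca_co.I8.K12
import Pool.Agent.Work.MP_7cb3ca_co.I8.K13
import Pool.Agent.Work.MP_7cb3ca_co.I8.K14
import Pool.Agent.Work.MP_7cb3ca_co.I8.K15
import Pool.Agent.Work.MP_7cb3ca_co.I8.K16
import Pool.Agent.Work.MP_7cb3ca_co.I8.K17
import Pool.Agent.Work.MP_7cb3ca_co.I8.K18
import Pool.Agent.Work.MP_7cb3ca_co.I8.K19
import Pool.Agent.Work.MP_7cb3ca_co.I8.K20
import Pool.Agent.Work.MP_7cb3ca_co.I8.K21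
import Pool.Agent.Work.MP_7cb3ca_co.I8.K22
import Pool.Agent.Work.MP_7cb3ca_co.I8.K23
import Pool.Agent.Work.MP_7cb3ca_co.I8.K24
import Pool.Agent.Work.MP_7cb3ca_co.I8.K25
import Pool.Agent.Work.MP_7cb3ca_co.I8.K26
import Pool.Agent.Work.MP_7cb3ca_co.I8.K27
import Pool.Agent.Work.MP_7cb3ca_co.I8.K28
import Pool.Agent.Work.MP_7cb3ca_co.I8.K29
import Pool.Agent.Work.MP_7cb3ca_co.I8.K30
import Pool.Agent.Work.MP_7cb3ca_co.I8.K31
import Pool.Agent.Work.MP_7cb3ca_co.I8.K32
import Pool.Agent.Work.MP_7cb3ca_co.I8.K33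
import Pool.Agent.Work.MP_7cb3ca_co.I8.K34
import Pool.Agent.Work.MP_7cb3ca_co.I8.K35
import Pool.Agent.Work.MP_7cb3ca_co.I8.K36
import Pool.Agent.Work.MP_7cb3ca_co.I8.K37
import Pool.Agent.Work.MP_7cb3ca_co.I8.K38
import Pool.Agent.Work.MP_7cb3ca_co.I8.K39
import Pool.Agent.Work.MP_7cb3ca_co.I8.K40
import Pool.Agent.Work.MP_7cb3ca_co.I8.K41
import Pool.Agent.Work.MP_7cb3ca_co.I8.K42
import Pool.Agent.Work.MP_7cb3ca_co.I8.K43
import Pool.Agent.Work.MP_7cb3ca_co.I8.K44
import Pool.Agent.Work.MP_7cb3ca_co.I8.K45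
import Pool.Agent.Work.MP_7cb3ca_co.I8.K46
import Pool.Agent.Work.MP_7cb3ca_co.I8.K47
import Pool.Agent.Work.MP_7cb3ca_co.I8.K48
import Pool.Agent.Work.MP_7cb3ca_co.I8.K49
import Pool.Agent.Work.MP_7cb3ca_co.I8.K50
import Pool.Agent.Work.MP_7cb3ca_co.I8.K51
import Pool.Agent.Work.MP_7cb3ca_co.I8.K52
import Pool.Agent.Work.MP_7cb3ca_co.I8.K53
import Pool.Agent.Work.MP_7cb3ca_co.I8.K54
import Pool.Agent.Work.MP_7cb3ca_co.I8.KT0
import Pool.Agent.Work.MP_7cb3ca_co.I8.KT1
import Pool.Agent.Work.MP_7cb3ca_co.I8.KL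

namespace Pool.Agent.Work.MP_7cb3ca_co.I8
open C3
set_option maxRecDepth 100000

theorem cov0_11 : CovA par 0 224821118438504681472 :=
  CovA.stepX p440.down <|
  CovA.stepX p441.down <|
  CovA.stepX p442.down <|
  CovA.stepX p443.down <|
  CovA.stepX p444.down <|
  CovA.stepX p445.down <|
  CovA.stepX p446.down <|
  CovA.stepX p447.down <|
  CovA.stepX p448.down <|
  CovA.stepX p449.down <|
  CovA.stepX p450.down <|
  CovA.stepX p451.down <|
  CovA.stepX p452.down <|
  CovA.stepX p453.down <|
  CovA.stepX p454.down <|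
  CovA.stepX p455.down <|
  CovA.stepX p456.down <|
  CovA.stepX p457.down <|
  CovA.stepX p458.down <|
  CovA.stepX p459.down <|
  CovA.stepX p460.down <|
  CovA.stepX p461.down <|
  CovA.stepX p462.down <|
  CovA.stepX p463.down <|
  CovA.stepX p464.down <|
  CovA.stepX p465.down <|
  CovA.stepX p466.down <|
  CovA.stepX p467.down <|
  CovA.stepX p468.down <|
  CovA.stepX p469.down <|
  CovA.stepX p470.down <|
  CovA.stepX p471.down <|
  CovA.stepX p472.down <|
  CovA.nil

theorem cov0_10 : CovA par 0 223721945739498094592 :=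
  CovA.stepX p400.down <|
  CovA.stepX p401.down <|
  CovA.stepX p402.down <|
  CovA.stepX p403.down <|
  CovA.stepX p404.down <|
  CovA.stepX p405.down <|
  CovA.stepX p406.down <|
  CovA.stepX p407.down <|
  CovA.stepX p408.down <|
  CovA.stepX p409.down <|
  CovA.stepX p410.down <|
  CovA.stepX p411.down <|
  CovA.stepX p412.down <|
  CovA.stepX p413.down <|
  CovA.stepX p414.down <|
  CovA.stepX p415.down <|
  CovA.stepX p416.down <|
  CovA.stepX p417.down <|
  CovA.stepX p418.down <|
  CovA.stepX p419.down <|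
  CovA.stepX p420.down <|
  CovA.stepX p421.down <|
  CovA.stepX p422.down <|
  CovA.stepX p423.down <|
  CovA.stepX p424.down <|
  CovA.stepX p425.down <|
  CovA.stepX p426.down <|
  CovA.stepX p427.down <|
  CovA.stepX p428.down <|
  CovA.stepX p429.down <|
  CovA.stepX p430.down <|
  CovA.stepX p431.down <|
  CovA.stepX p432.down <|
  CovA.stepX p433.down <|
  CovA.stepX p434.down <|
  CovA.stepX p435.down <|
  CovA.stepX p436.down <|
  CovA.stepX p437.down <|
  CovA.stepX p438.down <|
  CovA.stepX p439.down <|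
  cov0_11

theorem cov0_9 : CovA par 0 222585930253672120320 :=
  CovA.stepX p360.down <|
  CovA.stepX p361.down <|
  CovA.stepX p362.down <|
  CovA.stepX p363.down <|
  CovA.stepX p364.down <|
  CovA.stepX p365.down <|
  CovA.stepX p366.down <|
  CovA.stepX p367.down <|
  CovA.stepX p368.down <|
  CovA.stepX p369.down <|
  CovA.stepX p370.down <|
  CovA.stepX p371.down <|
  CovA.stepX p372.down <|
  CovA.stepX p373.down <|
  CovA.stepX p374.down <|
  CovA.stepX p375.down <|
  CovA.stepX p376.down <|
  CovA.stepX p377.down <|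
  CovA.stepX p378.down <|
  CovA.stepX p379.down <|
  CovA.stepX p380.down <|
  CovA.stepX p381.down <|
  CovA.stepX p382.down <|
  CovA.stepX p383.down <|
  CovA.stepX p384.down <|
  CovA.stepX p385.down <|
  CovA.stepX p386.down <|
  CovA.stepX p387.down <|
  CovA.stepX p388.down <|
  CovA.stepX p389.down <|
  CovA.stepX p390.down <|
  CovA.stepX p391.down <|
  CovA.stepX p392.down <|
  CovA.stepX p393.down <|
  CovA.stepX p394.down <|
  CovA.stepX p395.down <|
  CovA.stepX p396.down <|
  CovA.stepX p397.down <|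
  CovA.stepX p398.down <|
  CovA.stepX p399.down <|
  cov0_10

theorem cov0_8 : CovA par 0 221416383857268097024 :=
  CovA.stepX p320.down <|
  CovA.stepX p321.down <|
  CovA.stepX p322.down <|
  CovA.stepX p323.down <|
  CovA.stepX p324.down <|
  CovA.stepX p325.down <|
  CovA.stepX p326.down <|
  CovA.stepX p327.down <|
  CovA.stepX p328.down <|
  CovA.stepX p329.down <|
  CovA.stepX p330.down <|
  CovA.stepX p331.down <|
  CovA.stepX p332.down <|
  CovA.stepX p333.down <|
  CovA.stepX p334.down <|
  CovA.stepX p335.down <|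
  CovA.stepX p336.down <|
  CovA.stepX p337.down <|
  CovA.stepX p338.down <|
  CovA.stepX p339.down <|
  CovA.stepX p340.down <|
  CovA.stepX p341.down <|
  CovA.stepX p342.down <|
  CovA.stepX p343.down <|
  CovA.stepX p344.down <|
  CovA.stepX p345.down <|
  CovA.stepX p346.down <|
  CovA.stepX p347.down <|
  CovA.stepX p348.down <|
  CovA.stepX p349.down <|
  CovA.stepX p350.down <|
  CovA.stepX p351.down <|
  CovA.stepX p352.down <|
  CovA.stepX p353.down <|
  CovA.stepX p354.down <|
  CovA.stepX p355.down <|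
  CovA.stepX p356.down <|
  CovA.stepX p357.down <|
  CovA.stepX p358.down <|
  CovA.stepX p359.down <|
  cov0_9

theorem cov0_7 : CovA par 0 151088172353342930944 :=
  CovA.stepX p280.down <|
  CovA.stepX p281.down <|
  CovA.stepX p282.down <|
  CovA.stepX p283.down <|
  CovA.stepX p284.down <|
  CovA.stepX p285.down <|
  CovA.stepX p286.down <|
  CovA.stepX p287.down <|
  CovA.stepX p288.down <|
  CovA.stepX p289.down <|
  CovA.stepX p290.down <|
  CovA.stepX p291.down <|
  CovA.stepX p292.down <|
  CovA.stepX p293.down <|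
  CovA.stepX p294.down <|
  CovA.stepX p295.down <|
  CovA.stepX p296.down <|
  CovA.stepX p297.down <|
  CovA.stepX p298.down <|
  CovA.stepX p299.down <|
  CovA.stepX p300.down <|
  CovA.stepX p301.down <|
  CovA.stepX p302.down <|
  CovA.stepX p303.down <|
  CovA.stepX p304.down <|
  CovA.stepX p305.down <|
  CovA.stepX p306.down <|
  CovA.stepX p307.down <|
  CovA.stepX p308.down <|
  CovA.stepX p309.down <|
  CovA.stepX p310.down <|
  CovA.stepX p311.down <|
  CovA.stepX p312.down <|
  CovA.stepX p313.down <|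
  CovA.stepX p314.down <|
  CovA.stepX p315.down <|
  CovA.stepX p316.down <|
  CovA.stepX p317.down <|
  CovA.stepX p318.down <|
  CovA.stepX p319.down <|
  cov0_8

theorem cov0_6 : CovA par 0 151052152488715091968 :=
  CovA.stepX p240.down <|
  CovA.stepX p241.down <|
  CovA.stepX p242.down <|
  CovA.stepX p243.down <|
  CovA.stepX p244.down <|
  CovA.stepX p245.down <|
  CovA.stepX p246.down <|
  CovA.stepX p247.down <|
  CovA.stepX p248.down <|
  CovA.stepX p249.down <|
  CovA.stepX p250.down <|
  CovA.stepX p251.down <|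
  CovA.stepX p252.down <|
  CovA.stepX p253.down <|
  CovA.stepX p254.down <|
  CovA.stepX p255.down <|
  CovA.stepX p256.down <|
  CovA.stepX p257.down <|
  CovA.stepX p258.down <|
  CovA.stepX p259.down <|
  CovA.stepX p260.down <|
  CovA.stepX p261.down <|
  CovA.stepX p262.down <|
  CovA.stepX p263.down <|
  CovA.stepX p264.down <|
  CovA.stepX p265.down <|
  CovA.stepX p266.down <|
  CovA.stepX p267.down <|
  CovA.stepX p268.down <|
  CovA.stepX p269.down <|
  CovA.stepX p270.down <|
  CovA.stepX p271.down <|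
  CovA.stepX p272.down <|
  CovA.stepX p273.down <|
  CovA.stepX p274.down <|
  CovA.stepX p275.down <|
  CovA.stepX p276.down <|
  CovA.stepX p277.down <|
  CovA.stepX p278.down <|
  CovA.stepX p279.down <|
  cov0_7

theorem cov0_5 : CovA par 0 148799794056635904000 :=
  CovA.stepX p200.down <|
  CovA.stepX p201.down <|
  CovA.stepX p202.down <|
  CovA.stepX p203.down <|
  CovA.stepX p204.down <|
  CovA.stepX p205.down <|
  CovA.stepX p206.down <|
  CovA.stepX p207.down <|
  CovA.stepX p208.down <|
  CovA.stepX p209.down <|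
  CovA.stepX p210.down <|
  CovA.stepX p211.down <|
  CovA.stepX p212.down <|
  CovA.stepX p213.down <|
  CovA.stepX p214.down <|
  CovA.stepX p215.down <|
  CovA.stepX p216.down <|
  CovA.stepX p217.down <|
  CovA.stepX p218.down <|
  CovA.stepX p219.down <|
  CovA.stepX p220.down <|
  CovA.stepX p221.down <|
  CovA.stepX p222.down <|
  CovA.stepX p223.down <|
  CovA.stepX p224.down <|
  CovA.stepX p225.down <|
  CovA.stepX p226.down <|
  CovA.stepX p227.down <|
  CovA.stepX p228.down <|
  CovA.stepX p229.down <|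
  CovA.stepX p230.down <|
  CovA.stepX p231.down <|
  CovA.stepX p232.down <|
  CovA.stepX p233.down <|
  CovA.stepX p234.down <|
  CovA.stepX p235.down <|
  CovA.stepX p236.down <|
  CovA.stepX p237.down <|
  CovA.stepX p238.down <|
  CovA.stepX p239.down <|
  cov0_6

theorem cov0_4 : CovA par 0 147574797083326021632 :=
  CovA.stepX p160.down <|
  CovA.stepX p161.down <|
  CovA.stepX p162.down <|
  CovA.stepX p163.down <|
  CovA.stepX p164.down <|
  CovA.stepX p165.down <|
  CovA.stepX p166.down <|
  CovA.stepX p167.down <|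
  CovA.stepX p168.down <|
  CovA.stepX p169.down <|
  CovA.stepX p170.down <|
  CovA.stepX p171.down <|
  CovA.stepX p172.down <|
  CovA.stepX p173.down <|
  CovA.stepX p174.down <|
  CovA.stepX p175.down <|
  CovA.stepX p176.down <|
  CovA.stepX p177.down <|
  CovA.stepX p178.down <|
  CovA.stepX p179.down <|
  CovA.stepX p180.down <|
  CovA.stepX p181.down <|
  CovA.stepX p182.down <|
  CovA.stepX p183.down <|
  CovA.stepX p184.down <|
  CovA.stepX p185.down <|
  CovA.stepX p186.down <|
  CovA.stepX p187.down <|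
  CovA.stepX p188.down <|
  CovA.stepX p189.down <|
  CovA.stepX p190.down <|
  CovA.stepX p191.down <|
  CovA.stepX p192.down <|
  CovA.stepX p193.down <|
  CovA.stepX p194.down <|
  CovA.stepX p195.down <|
  CovA.stepX p196.down <|
  CovA.stepX p197.down <|
  CovA.stepX p198.down <|
  CovA.stepX p199.down <|
  cov0_5

theorem cov0_3 : CovA par 0 76164877104248258560 :=
  CovA.stepX p120.down <|
  CovA.stepX p121.down <|
  CovA.stepX p122.down <|
  CovA.stepX p123.down <|
  CovA.stepX p124.down <|
  CovA.stepX p125.down <|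
  CovA.stepX p126.down <|
  CovA.stepX p127.down <|
  CovA.stepX p128.down <|
  CovA.stepX p129.down <|
  CovA.stepX p130.down <|
  CovA.stepX p131.down <|
  CovA.stepX p132.down <|
  CovA.stepX p133.down <|
  CovA.stepX p134.down <|
  CovA.stepX p135.down <|
  CovA.stepX p136.down <|
  CovA.stepX p137.down <|
  CovA.stepX p138.down <|
  CovA.stepX p139.down <|
  CovA.stepX p140.down <|
  CovA.stepX p141.down <|
  CovA.stepX p142.down <|
  CovA.stepX p143.down <|
  CovA.stepX p144.down <|
  CovA.stepX p145.down <|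
  CovA.stepX p146.down <|
  CovA.stepX p147.down <|
  CovA.stepX p148.down <|
  CovA.stepX p149.down <|
  CovA.stepX p150.down <|
  CovA.stepX p151.down <|
  CovA.stepX p152.down <|
  CovA.stepX p153.down <|
  CovA.stepX p154.down <|
  CovA.stepX p155.down <|
  CovA.stepX p156.down <|
  CovA.stepX p157.down <|
  CovA.stepX p158.down <|
  CovA.stepX p159.down <|
  cov0_4

theorem cov0_2 : CovA par 0 76092846042489290752 :=
  CovA.stepX p80.down <|
  CovA.stepX p81.down <|
  CovA.stepX p82.down <|
  CovA.stepX p83.down <|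
  CovA.stepX p84.down <|
  CovA.stepX p85.down <|
  CovA.stepX p86.down <|
  CovA.stepX p87.down <|
  CovA.stepX p88.down <|
  CovA.stepX p89.down <|
  CovA.stepX p90.down <|
  CovA.stepX p91.down <|
  CovA.stepX p92.down <|
  CovA.stepX p93.down <|
  CovA.stepX p94.down <|
  CovA.stepX p95.down <|
  CovA.stepX p96.down <|
  CovA.stepX p97.down <|
  CovA.stepX p98.down <|
  CovA.stepX p99.down <|
  CovA.stepX p100.down <|
  CovA.stepX p101.down <|
  CovA.stepX p102.down <|
  CovA.stepX p103.down <|
  CovA.stepX p104.down <|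
  CovA.stepX p105.down <|
  CovA.stepX p106.down <|
  CovA.stepX p107.down <|
  CovA.stepX p108.down <|
  CovA.stepX p109.down <|
  CovA.stepX p110.down <|
  CovA.stepX p111.down <|
  CovA.stepX p112.down <|
  CovA.stepX p113.down <|
  CovA.stepX p114.down <|
  CovA.stepX p115.down <|
  CovA.stepX p116.down <|
  CovA.stepX p117.down <|
  CovA.stepX p118.down <|
  CovA.stepX p119.down <|
  cov0_3

theorem cov0_1 : CovA par 0 3460185224577548288 :=
  CovA.stepX p40.down <|
  CovA.stepX p41.down <|
  CovA.stepX p42.down <|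
  CovA.stepX p43.down <|
  CovA.stepX p44.down <|
  CovA.stepX p45.down <|
  CovA.stepX p46.down <|
  CovA.stepX p47.down <|
  CovA.stepX p48.down <|
  CovA.stepX p49.down <|
  CovA.stepX p50.down <|
  CovA.stepX p51.down <|
  CovA.stepX p52.down <|
  CovA.stepX p53.down <|
  CovA.stepX p54.down <|
  CovA.stepX p55.down <|
  CovA.stepX p56.down <|
  CovA.stepX p57.down <|
  CovA.stepX p58.down <|
  CovA.stepX p59.down <|
  CovA.stepX p60.down <|
  CovA.stepX p61.down <|
  CovA.stepX p62.down <|
  CovA.stepX p63.down <|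
  CovA.stepX p64.down <|
  CovA.stepX p65.down <|
  CovA.stepX p66.down <|
  CovA.stepX p67.down <|
  CovA.stepX p68.down <|
  CovA.stepX p69.down <|
  CovA.stepX p70.down <|
  CovA.stepX p71.down <|
  CovA.stepX p72.down <|
  CovA.stepX p73.down <|
  CovA.stepX p74.down <|
  CovA.stepX p75.down <|
  CovA.stepX p76.down <|
  CovA.stepX p77.down <|
  CovA.stepX p78.down <|
  CovA.stepX p79.down <|
  cov0_2

theorem cov0 : CovA par 0 0 :=
  CovA.stepX p0.down <|
  CovA.stepX p1.down <|
  CovA.stepX p2.down <|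
  CovA.stepX p3.down <|
  CovA.stepX p4.down <|
  CovA.stepX p5.down <|
  CovA.stepX p6.down <|
  CovA.stepX p7.down <|
  CovA.stepX p8.down <|
  CovA.stepX p9.down <|
  CovA.stepX p10.down <|
  CovA.stepX p11.down <|
  CovA.stepX p12.down <|
  CovA.stepX p13.down <|
  CovA.stepX p14.down <|
  CovA.stepX p15.down <|
  CovA.stepX p16.down <|
  CovA.stepX p17.down <|
  CovA.stepX p18.down <|
  CovA.stepX p19.down <|
  CovA.stepX p20.down <|
  CovA.stepX p21.down <|
  CovA.stepX p22.down <|
  CovA.stepX p23.down <|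
  CovA.stepX p24.down <|
  CovA.stepX p25.down <|
  CovA.stepX p26.down <|
  CovA.stepX p27.down <|
  CovA.stepX p28.down <|
  CovA.stepX p29.down <|
  CovA.stepX p30.down <|
  CovA.stepX p31.down <|
  CovA.stepX p32.down <|
  CovA.stepX p33.down <|
  CovA.stepX p34.down <|
  CovA.stepX p35.down <|
  CovA.stepX p36.down <|
  CovA.stepX p37.down <|
  CovA.stepX p38.down <|
  CovA.stepX p39.down <|
  cov0_1

theorem cov1_3 : CovA par 1 149934146938021609472 :=
  CovA.stepX p593.down <|
  CovA.stepX p594.down <|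
  CovA.stepX p595.down <|
  CovA.stepX p596.down <|
  CovA.stepX p597.down <|
  CovA.stepX p598.down <|
  CovA.stepX p599.down <|
  CovA.stepX p600.down <|
  CovA.stepX p601.down <|
  CovA.stepX p602.down <|
  CovA.stepX p603.down <|
  CovA.stepX p604.down <|
  CovA.stepX p605.down <|
  CovA.stepX p606.down <|
  CovA.stepX p607.down <|
  CovA.stepX p608.down <|
  CovA.stepX p609.down <|
  CovA.stepX p610.down <|
  CovA.stepX p611.down <|
  CovA.stepX p612.down <|
  CovA.stepX p613.down <|
  CovA.stepX p614.down <|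
  CovA.stepX p615.down <|
  CovA.stepX p616.down <|
  CovA.stepX p617.down <|
  CovA.stepX p618.down <|
  CovA.stepX p619.down <|
  CovA.stepX p620.down <|
  CovA.stepX p621.down <|
  CovA.stepX p622.down <|
  CovA.stepX p623.down <|
  CovA.stepX p624.down <|
  CovA.stepX p625.down <|
  CovA.stepX p626.down <|
  CovA.stepX p627.down <|
  CovA.nil

theorem cov1_2 : CovA par 1 77246044754904350720 :=
  CovA.stepX p553.down <|
  CovA.stepX p554.down <|
  CovA.stepX p555.down <|
  CovA.stepX p556.down <|
  CovA.stepX p557.down <|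
  CovA.stepX p558.down <|
  CovA.stepX p559.down <|
  CovA.stepX p560.down <|
  CovA.stepX p561.down <|
  CovA.stepX p562.down <|
  CovA.stepX p563.down <|
  CovA.stepX p564.down <|
  CovA.stepX p565.down <|
  CovA.stepX p566.down <|
  CovA.stepX p567.down <|
  CovA.stepX p568.down <|
  CovA.stepX p569.down <|
  CovA.stepX p570.down <|
  CovA.stepX p571.down <|
  CovA.stepX p572.down <|
  CovA.stepX p573.down <|
  CovA.stepX p574.down <|
  CovA.stepX p575.down <|
  CovA.stepX p576.down <|
  CovA.stepX p577.down <|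
  CovA.stepX p578.down <|
  CovA.stepX p579.down <|
  CovA.stepX p580.down <|
  CovA.stepX p581.down <|
  CovA.stepX p582.down <|
  CovA.stepX p583.down <|
  CovA.stepX p584.down <|
  CovA.stepX p585.down <|
  CovA.stepX p586.down <|
  CovA.stepX p587.down <|
  CovA.stepX p588.down <|
  CovA.stepX p589.down <|
  CovA.stepX p590.down <|
  CovA.stepX p591.down <|
  CovA.stepX p592.down <|
  cov1_3

theorem cov1_1 : CovA par 1 73788401469139976192 :=
  CovA.stepX p513.down <|
  CovA.stepX p514.down <|
  CovA.stepX p515.down <|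
  CovA.stepX p516.down <|
  CovA.stepX p517.down <|
  CovA.stepX p518.down <|
  CovA.stepX p519.down <|
  CovA.stepX p520.down <|
  CovA.stepX p521.down <|
  CovA.stepX p522.down <|
  CovA.stepX p523.down <|
  CovA.stepX p524.down <|
  CovA.stepX p525.down <|
  CovA.stepX p526.down <|
  CovA.stepX p527.down <|
  CovA.stepX p528.down <|
  CovA.stepX p529.down <|
  CovA.stepX p530.down <|
  CovA.stepX p531.down <|
  CovA.stepX p532.down <|
  CovA.stepX p533.down <|
  CovA.stepX p534.down <|
  CovA.stepX p535.down <|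
  CovA.stepX p536.down <|
  CovA.stepX p537.down <|
  CovA.stepX p538.down <|
  CovA.stepX p539.down <|
  CovA.stepX p540.down <|
  CovA.stepX p541.down <|
  CovA.stepX p542.down <|
  CovA.stepX p543.down <|
  CovA.stepX p544.down <|
  CovA.stepX p545.down <|
  CovA.stepX p546.down <|
  CovA.stepX p547.down <|
  CovA.stepX p548.down <|
  CovA.stepX p549.down <|
  CovA.stepX p550.down <|
  CovA.stepX p551.down <|
  CovA.stepX p552.down <|
  cov1_2

theorem cov1 : CovA par 1 0 :=
  CovA.stepX p473.down <|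
  CovA.stepX p474.down <|
  CovA.stepX p475.down <|
  CovA.stepX p476.down <|
  CovA.stepX p477.down <|
  CovA.stepX p478.down <|
  CovA.stepX p479.down <|
  CovA.stepX p480.down <|
  CovA.stepX p481.down <|
  CovA.stepX p482.down <|
  CovA.stepX p483.down <|
  CovA.stepX p484.down <|
  CovA.stepX p485.down <|
  CovA.stepX p486.down <|
  CovA.stepX p487.down <|
  CovA.stepX p488.down <|
  CovA.stepX p489.down <|
  CovA.stepX p490.down <|
  CovA.stepX p491.down <|
  CovA.stepX p492.down <|
  CovA.stepX p493.down <|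
  CovA.stepX p494.down <|
  CovA.stepX p495.down <|
  CovA.stepX p496.down <|
  CovA.stepX p497.down <|
  CovA.stepX p498.down <|
  CovA.stepX p499.down <|
  CovA.stepX p500.down <|
  CovA.stepX p501.down <|
  CovA.stepX p502.down <|
  CovA.stepX p503.down <|
  CovA.stepX p504.down <|
  CovA.stepX p505.down <|
  CovA.stepX p506.down <|
  CovA.stepX p507.down <|
  CovA.stepX p508.down <|
  CovA.stepX p509.down <|
  CovA.stepX p510.down <|
  CovA.stepX p511.down <|
  CovA.stepX p512.down <|
  cov1_1

theorem cov2_1 : CovA par 2 147591975784278917120 :=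
  CovA.stepX p668.down <|
  CovA.stepX p669.down <|
  CovA.stepX p670.down <|
  CovA.stepX p671.down <|
  CovA.stepX p672.down <|
  CovA.stepX p673.down <|
  CovA.stepX p674.down <|
  CovA.stepX p675.down <|
  CovA.stepX p676.down <|
  CovA.stepX p677.down <|
  CovA.stepX p678.down <|
  CovA.stepX p679.down <|
  CovA.stepX p680.down <|
  CovA.stepX p681.down <|
  CovA.stepX p682.down <|
  CovA.stepX p683.down <|
  CovA.stepX p684.down <|
  CovA.stepX p685.down <|
  CovA.stepX p686.down <|
  CovA.stepX p687.down <|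
  CovA.nil

theorem cov2 : CovA par 2 0 :=
  CovA.stepX p628.down <|
  CovA.stepX p629.down <|
  CovA.stepX p630.down <|
  CovA.stepX p631.down <|
  CovA.stepX p632.down <|
  CovA.stepX p633.down <|
  CovA.stepX p634.down <|
  CovA.stepX p635.down <|
  CovA.stepX p636.down <|
  CovA.stepX p637.down <|
  CovA.stepX p638.down <|
  CovA.stepX p639.down <|
  CovA.stepX p640.down <|
  CovA.stepX p641.down <|
  CovA.stepX p642.down <|
  CovA.stepX p643.down <|
  CovA.stepX p644.down <|
  CovA.stepX p645.down <|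
  CovA.stepX p646.down <|
  CovA.stepX p647.down <|
  CovA.stepX p648.down <|
  CovA.stepX p649.down <|
  CovA.stepX p650.down <|
  CovA.stepX p651.down <|
  CovA.stepX p652.down <|
  CovA.stepX p653.down <|
  CovA.stepX p654.down <|
  CovA.stepX p655.down <|
  CovA.stepX p656.down <|
  CovA.stepX p657.down <|
  CovA.stepX p658.down <|
  CovA.stepX p659.down <|
  CovA.stepX p660.down <|
  CovA.stepX p661.down <|
  CovA.stepX p662.down <|
  CovA.stepX p663.down <|
  CovA.stepX p664.down <|
  CovA.stepX p665.down <|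
  CovA.stepX p666.down <|
  CovA.stepX p667.down <|
  cov2_1

theorem cov3_1 : CovA par 3 224821101189830541312 :=
  CovA.stepX p728.down <|
  CovA.stepX p729.down <|
  CovA.stepX p730.down <|
  CovA.stepX p731.down <|
  CovA.stepX p732.down <|
  CovA.stepX p733.down <|
  CovA.stepX p734.down <|
  CovA.stepX p735.down <|
  CovA.stepX p736.down <|
  CovA.stepX p737.down <|
  CovA.nil

theorem cov3 : CovA par 3 0 :=
  CovA.stepX p688.down <|
  CovA.stepX p689.down <|
  CovA.stepX p690.down <|
  CovA.stepX p691.down <|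
  CovA.stepX p692.down <|
  CovA.stepX p693.down <|
  CovA.stepX p694.down <|
  CovA.stepX p695.down <|
  CovA.stepX p696.down <|
  CovA.stepX p697.down <|
  CovA.stepX p698.down <|
  CovA.stepX p699.down <|
  CovA.stepX p700.down <|
  CovA.stepX p701.down <|
  CovA.stepX p702.down <|
  CovA.stepX p703.down <|
  CovA.stepX p704.down <|
  CovA.stepX p705.down <|
  CovA.stepX p706.down <|
  CovA.stepX p707.down <|
  CovA.stepX p708.down <|
  CovA.stepX p709.down <|
  CovA.stepX p710.down <|
  CovA.stepX p711.down <|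
  CovA.stepX p712.down <|
  CovA.stepX p713.down <|
  CovA.stepX p714.down <|
  CovA.stepX p715.down <|
  CovA.stepX p716.down <|
  CovA.stepX p717.down <|
  CovA.stepX p718.down <|
  CovA.stepX p719.down <|
  CovA.stepX p720.down <|
  CovA.stepX p721.down <|
  CovA.stepX p722.down <|
  CovA.stepX p723.down <|
  CovA.stepX p724.down <|
  CovA.stepX p725.down <|
  CovA.stepX p726.down <|
  CovA.stepX p727.down <|
  cov3_1

theorem cov4 : CovA par 4 0 :=
  CovA.stepX p738.down <|
  CovA.stepX p739.down <|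
  CovA.stepX p740.down <|
  CovA.stepX p741.down <|
  CovA.stepX p742.down <|
  CovA.stepX p743.down <|
  CovA.stepX p744.down <|
  CovA.stepX p745.down <|
  CovA.stepX p746.down <|
  CovA.stepX p747.down <|
  CovA.nil

theorem cov5 : CovA par 5 0 :=
  CovA.stepX p748.down <|
  CovA.stepX p749.down <|
  CovA.stepX p750.down <|
  CovA.stepX p751.down <|
  CovA.stepX p752.down <|
  CovA.stepX p753.down <|
  CovA.stepX p754.down <|
  CovA.stepX p755.down <|
  CovA.stepX p756.down <|
  CovA.stepX p757.down <|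
  CovA.nil

theorem cov6 : CovA par 6 0 :=
  CovA.stepX p758.down <|
  CovA.stepX p759.down <|
  CovA.stepX p760.down <|
  CovA.stepX p761.down <|
  CovA.stepX p762.down <|
  CovA.stepX p763.down <|
  CovA.stepX p764.down <|
  CovA.stepX p765.down <|
  CovA.stepX p766.down <|
  CovA.nil

theorem cov7 : CovA par 7 0 :=
  CovA.stepX p767.down <|
  CovA.stepX p768.down <|
  CovA.stepX p769.down <|
  CovA.stepX p770.down <|
  CovA.stepX p771.down <|
  CovA.stepX p772.down <|
  CovA.stepX p773.down <|
  CovA.stepX p774.down <|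
  CovA.nil

theorem cov8 : CovA par 8 0 :=
  CovA.stepX p775.down <|
  CovA.stepX p776.down <|
  CovA.stepX p777.down <|
  CovA.stepX p778.down <|
  CovA.stepX p779.down <|
  CovA.stepX p780.down <|
  CovA.stepX p781.down <|
  CovA.nil

theorem cov9 : CovA par 9 0 :=
  CovA.stepX p782.down <|
  CovA.stepX p783.down <|
  CovA.stepX p784.down <|
  CovA.stepX p785.down <|
  CovA.stepX p786.down <|
  CovA.stepX p787.down <|
  CovA.stepX p788.down <|
  CovA.stepX p789.down <|
  CovA.stepX p790.down <|
  CovA.stepX p791.down <|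
  CovA.stepX p792.down <|
  CovA.stepX p793.down <|
  CovA.nil

theorem cov10_3 : CovA par 10 224856026077292658688 :=
  CovA.stepX p914.down <|
  CovA.stepX p915.down <|
  CovA.stepX p916.down <|
  CovA.stepX p917.down <|
  CovA.stepX p918.down <|
  CovA.stepX p919.down <|
  CovA.stepX p920.down <|
  CovA.nil

theorem cov10_2 : CovA par 10 223666776572021440512 :=
  CovA.stepX p874.down <|
  CovA.stepX p875.down <|
  CovA.stepX p876.down <|
  CovA.stepX p877.down <|
  CovA.stepX p878.down <|
  CovA.stepX p879.down <|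
  CovA.stepX p880.down <|
  CovA.stepX p881.down <|
  CovA.stepX p882.down <|
  CovA.stepX p883.down <|
  CovA.stepX p884.down <|
  CovA.stepX p885.down <|
  CovA.stepX p886.down <|
  CovA.stepX p887.down <|
  CovA.stepX p888.down <|
  CovA.stepX p889.down <|
  CovA.stepX p890.down <|
  CovA.stepX p891.down <|
  CovA.stepX p892.down <|
  CovA.stepX p893.down <|
  CovA.stepX p894.down <|
  CovA.stepX p895.down <|
  CovA.stepX p896.down <|
  CovA.stepX p897.down <|
  CovA.stepX p898.down <|
  CovA.stepX p899.down <|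
  CovA.stepX p900.down <|
  CovA.stepX p901.down <|
  CovA.stepX p902.down <|
  CovA.stepX p903.down <|
  CovA.stepX p904.down <|
  CovA.stepX p905.down <|
  CovA.stepX p906.down <|
  CovA.stepX p907.down <|
  CovA.stepX p908.down <|
  CovA.stepX p909.down <|
  CovA.stepX p910.down <|
  CovA.stepX p911.down <|
  CovA.stepX p912.down <|
  CovA.stepX p913.down <|
  cov10_3

theorem cov10_1 : CovA par 10 77318383623247769600 :=
  CovA.stepX p834.down <|
  CovA.stepX p835.down <|
  CovA.stepX p836.down <|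
  CovA.stepX p837.down <|
  CovA.stepX p838.down <|
  CovA.stepX p839.down <|
  CovA.stepX p840.down <|
  CovA.stepX p841.down <|
  CovA.stepX p842.down <|
  CovA.stepX p843.down <|
  CovA.stepX p844.down <|
  CovA.stepX p845.down <|
  CovA.stepX p846.down <|
  CovA.stepX p847.down <|
  CovA.stepX p848.down <|
  CovA.stepX p849.down <|
  CovA.stepX p850.down <|
  CovA.stepX p851.down <|
  CovA.stepX p852.down <|
  CovA.stepX p853.down <|
  CovA.stepX p854.down <|
  CovA.stepX p855.down <|
  CovA.stepX p856.down <|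
  CovA.stepX p857.down <|
  CovA.stepX p858.down <|
  CovA.stepX p859.down <|
  CovA.stepX p860.down <|
  CovA.stepX p861.down <|
  CovA.stepX p862.down <|
  CovA.stepX p863.down <|
  CovA.stepX p864.down <|
  CovA.stepX p865.down <|
  CovA.stepX p866.down <|
  CovA.stepX p867.down <|
  CovA.stepX p868.down <|
  CovA.stepX p869.down <|
  CovA.stepX p870.down <|
  CovA.stepX p871.down <|
  CovA.stepX p872.down <|
  CovA.stepX p873.down <|
  cov10_2

theorem cov10 : CovA par 10 0 :=
  CovA.stepX p794.down <|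
  CovA.stepX p795.down <|
  CovA.stepX p796.down <|
  CovA.stepX p797.down <|
  CovA.stepX p798.down <|
  CovA.stepX p799.down <|
  CovA.stepX p800.down <|
  CovA.stepX p801.down <|
  CovA.stepX p802.down <|
  CovA.stepX p803.down <|
  CovA.stepX p804.down <|
  CovA.stepX p805.down <|
  CovA.stepX p806.down <|
  CovA.stepX p807.down <|
  CovA.stepX p808.down <|
  CovA.stepX p809.down <|
  CovA.stepX p810.down <|
  CovA.stepX p811.down <|
  CovA.stepX p812.down <|
  CovA.stepX p813.down <|
  CovA.stepX p814.down <|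
  CovA.stepX p815.down <|
  CovA.stepX p816.down <|
  CovA.stepX p817.down <|
  CovA.stepX p818.down <|
  CovA.stepX p819.down <|
  CovA.stepX p820.down <|
  CovA.stepX p821.down <|
  CovA.stepX p822.down <|
  CovA.stepX p823.down <|
  CovA.stepX p824.down <|
  CovA.stepX p825.down <|
  CovA.stepX p826.down <|
  CovA.stepX p827.down <|
  CovA.stepX p828.down <|
  CovA.stepX p829.down <|
  CovA.stepX p830.down <|
  CovA.stepX p831.down <|
  CovA.stepX p832.down <|
  CovA.stepX p833.down <|
  cov10_1

theorem cov11 : CovA par 11 0 :=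
  CovA.stepX p921.down <|
  CovA.stepX p922.down <|
  CovA.stepX p923.down <|
  CovA.stepX p924.down <|
  CovA.stepX p925.down <|
  CovA.stepX p926.down <|
  CovA.stepX p927.down <|
  CovA.stepX p928.down <|
  CovA.stepX p929.down <|
  CovA.stepX p930.down <|
  CovA.stepX p931.down <|
  CovA.stepX p932.down <|
  CovA.stepX p933.down <|
  CovA.stepX p934.down <|
  CovA.stepX p935.down <|
  CovA.stepX p936.down <|
  CovA.stepX p937.down <|
  CovA.stepX p938.down <|
  CovA.stepX p939.down <|
  CovA.stepX p940.down <|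
  CovA.stepX p941.down <|
  CovA.stepX p942.down <|
  CovA.stepX p943.down <|
  CovA.stepX p944.down <|
  CovA.stepX p945.down <|
  CovA.stepX p946.down <|
  CovA.stepX p947.down <|
  CovA.stepX p948.down <|
  CovA.stepX p949.down <|
  CovA.stepX p950.down <|
  CovA.stepX p951.down <|
  CovA.stepX p952.down <|
  CovA.stepX p953.down <|
  CovA.stepX p954.down <|
  CovA.nil

theorem cov12 : CovA par 12 0 :=
  CovA.stepX p955.down <|
  CovA.stepX p956.down <|
  CovA.stepX p957.down <|
  CovA.stepX p958.down <|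
  CovA.stepX p959.down <|
  CovA.stepX p960.down <|
  CovA.stepX p961.down <|
  CovA.stepX p962.down <|
  CovA.stepX p963.down <|
  CovA.nil

theorem cov13 : CovA par 13 0 :=
  CovA.stepX p964.down <|
  CovA.stepX p965.down <|
  CovA.stepX p966.down <|
  CovA.stepX p967.down <|
  CovA.stepX p968.down <|
  CovA.stepX p969.down <|
  CovA.stepX p970.down <|
  CovA.stepX p971.down <|
  CovA.stepX p972.down <|
  CovA.stepX p973.down <|
  CovA.stepX p974.down <|
  CovA.stepX p975.down <|
  CovA.stepX p976.down <|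
  CovA.stepX p977.down <|
  CovA.stepX p978.down <|
  CovA.stepX p979.down <|
  CovA.stepX p980.down <|
  CovA.stepX p981.down <|
  CovA.stepX p982.down <|
  CovA.stepX p983.down <|
  CovA.nil

theorem cov14 : CovA par 14 0 :=
  CovA.stepX p984.down <|
  CovA.stepX p985.down <|
  CovA.stepX p986.down <|
  CovA.stepX p987.down <|
  CovA.stepX p988.down <|
  CovA.stepX p989.down <|
  CovA.stepX p990.down <|
  CovA.stepX p991.down <|
  CovA.nil

theorem cov15 : CovA par 15 0 :=
  CovA.stepX p992.down <|
  CovA.stepX p993.down <|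
  CovA.stepX p994.down <|
  CovA.stepX p995.down <|
  CovA.stepX p996.down <|
  CovA.stepX p997.down <|
  CovA.stepX p998.down <|
  CovA.stepX p999.down <|
  CovA.nil

theorem cov16 : CovA par 16 0 :=
  CovA.stepX p1000.down <|
  CovA.stepX p1001.down <|
  CovA.stepX p1002.down <|
  CovA.stepX p1003.down <|
  CovA.stepX p1004.down <|
  CovA.stepX p1005.down <|
  CovA.stepX p1006.down <|
  CovA.nil

theorem cov17 : CovA par 17 0 :=
  CovA.stepX p1007.down <|
  CovA.stepX p1008.down <|
  CovA.stepX p1009.down <|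
  CovA.stepX p1010.down <|
  CovA.stepX p1011.down <|
  CovA.stepX p1012.down <|
  CovA.nil

theorem cov18 : CovA par 18 0 :=
  CovA.stepX p1013.down <|
  CovA.stepX p1014.down <|
  CovA.stepX p1015.down <|
  CovA.stepX p1016.down <|
  CovA.stepX p1017.down <|
  CovA.stepX p1018.down <|
  CovA.nil

theorem cov19 : CovA par 19 0 :=
  CovA.stepX p1019.down <|
  CovA.stepX p1020.down <|
  CovA.stepX p1021.down <|
  CovA.stepX p1022.down <|
  CovA.stepX p1023.down <|
  CovA.stepX p1024.down <|
  CovA.stepX p1025.down <|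
  CovA.stepX p1026.down <|
  CovA.stepX p1027.down <|
  CovA.stepX p1028.down <|
  CovA.stepX p1029.down <|
  CovA.stepX p1030.down <|
  CovA.nil

theorem cov20_1 : CovA par 20 222586488736825999360 :=
  CovA.stepX p1071.down <|
  CovA.stepX p1072.down <|
  CovA.stepX p1073.down <|
  CovA.stepX p1074.down <|
  CovA.stepX p1075.down <|
  CovA.stepX p1076.down <|
  CovA.stepX p1077.down <|
  CovA.stepX p1078.down <|
  CovA.stepX p1079.down <|
  CovA.stepX p1080.down <|
  CovA.stepX p1081.down <|
  CovA.stepX p1082.down <|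
  CovA.stepX p1083.down <|
  CovA.stepX p1084.down <|
  CovA.stepX p1085.down <|
  CovA.stepX p1086.down <|
  CovA.stepX p1087.down <|
  CovA.stepX p1088.down <|
  CovA.stepX p1089.down <|
  CovA.stepX p1090.down <|
  CovA.stepX p1091.down <|
  CovA.stepX p1092.down <|
  CovA.stepX p1093.down <|
  CovA.stepX p1094.down <|
  CovA.nil

theorem cov20 : CovA par 20 0 :=
  CovA.stepX p1031.down <|
  CovA.stepX p1032.down <|
  CovA.stepX p1033.down <|
  CovA.stepX p1034.down <|
  CovA.stepX p1035.down <|
  CovA.stepX p1036.down <|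
  CovA.stepX p1037.down <|
  CovA.stepX p1038.down <|
  CovA.stepX p1039.down <|
  CovA.stepX p1040.down <|
  CovA.stepX p1041.down <|
  CovA.stepX p1042.down <|
  CovA.stepX p1043.down <|
  CovA.stepX p1044.down <|
  CovA.stepX p1045.down <|
  CovA.stepX p1046.down <|
  CovA.stepX p1047.down <|
  CovA.stepX p1048.down <|
  CovA.stepX p1049.down <|
  CovA.stepX p1050.down <|
  CovA.stepX p1051.down <|
  CovA.stepX p1052.down <|
  CovA.stepX p1053.down <|
  CovA.stepX p1054.down <|
  CovA.stepX p1055.down <|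
  CovA.stepX p1056.down <|
  CovA.stepX p1057.down <|
  CovA.stepX p1058.down <|
  CovA.stepX p1059.down <|
  CovA.stepX p1060.down <|
  CovA.stepX p1061.down <|
  CovA.stepX p1062.down <|
  CovA.stepX p1063.down <|
  CovA.stepX p1064.down <|
  CovA.stepX p1065.down <|
  CovA.stepX p1066.down <|
  CovA.stepX p1067.down <|
  CovA.stepX p1068.down <|
  CovA.stepX p1069.down <|
  CovA.stepX p1070.down <|
  cov20_1

theorem cov21 : CovA par 21 0 :=
  CovA.stepX p1095.down <|
  CovA.stepX p1096.down <|
  CovA.stepX p1097.down <|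
  CovA.stepX p1098.down <|
  CovA.stepX p1099.down <|
  CovA.stepX p1100.down <|
  CovA.stepX p1101.down <|
  CovA.stepX p1102.down <|
  CovA.stepX p1103.down <|
  CovA.stepX p1104.down <|
  CovA.stepX p1105.down <|
  CovA.stepX p1106.down <|
  CovA.nil

theorem cov22 : CovA par 22 0 :=
  CovA.stepX p1107.down <|
  CovA.stepX p1108.down <|
  CovA.stepX p1109.down <|
  CovA.nil

theorem cov23 : CovA par 23 0 :=
  CovA.stepX p1110.down <|
  CovA.stepX p1111.down <|
  CovA.stepX p1112.down <|
  CovA.stepX p1113.down <|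
  CovA.stepX p1114.down <|
  CovA.stepX p1115.down <|
  CovA.stepX p1116.down <|
  CovA.stepX p1117.down <|
  CovA.stepX p1118.down <|
  CovA.stepX p1119.down <|
  CovA.stepX p1120.down <|
  CovA.stepX p1121.down <|
  CovA.stepX p1122.down <|
  CovA.stepX p1123.down <|
  CovA.stepX p1124.down <|
  CovA.stepX p1125.down <|
  CovA.stepX p1126.down <|
  CovA.stepX p1127.down <|
  CovA.nil

theorem cov24 : CovA par 24 0 :=
  CovA.stepX p1128.down <|
  CovA.stepX p1129.down <|
  CovA.stepX p1130.down <|
  CovA.stepX p1131.down <|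
  CovA.stepX p1132.down <|
  CovA.stepX p1133.down <|
  CovA.stepX p1134.down <|
  CovA.stepX p1135.down <|
  CovA.nil

theorem cov25 : CovA par 25 0 :=
  CovA.stepX p1136.down <|
  CovA.stepX p1137.down <|
  CovA.stepX p1138.down <|
  CovA.stepX p1139.down <|
  CovA.stepX p1140.down <|
  CovA.stepX p1141.down <|
  CovA.stepX p1142.down <|
  CovA.stepX p1143.down <|
  CovA.nil

theorem cov26 : CovA par 26 0 :=
  CovA.stepX p1144.down <|
  CovA.stepX p1145.down <|
  CovA.stepX p1146.down <|
  CovA.stepX p1147.down <|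
  CovA.stepX p1148.down <|
  CovA.stepX p1149.down <|
  CovA.stepX p1150.down <|
  CovA.nil

theorem cov27 : CovA par 27 0 :=
  CovA.stepX p1151.down <|
  CovA.stepX p1152.down <|
  CovA.stepX p1153.down <|
  CovA.stepX p1154.down <|
  CovA.stepX p1155.down <|
  CovA.stepX p1156.down <|
  CovA.nil

theorem cov28 : CovA par 28 0 :=
  CovA.stepX p1157.down <|
  CovA.stepX p1158.down <|
  CovA.stepX p1159.down <|
  CovA.stepX p1160.down <|
  CovA.stepX p1161.down <|
  CovA.stepX p1162.down <|
  CovA.nil

theorem cov29 : CovA par 29 0 :=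
  CovA.stepX p1163.down <|
  CovA.stepX p1164.down <|
  CovA.stepX p1165.down <|
  CovA.stepX p1166.down <|
  CovA.stepX p1167.down <|
  CovA.stepX p1168.down <|
  CovA.stepX p1169.down <|
  CovA.stepX p1170.down <|
  CovA.stepX p1171.down <|
  CovA.stepX p1172.down <|
  CovA.stepX p1173.down <|
  CovA.stepX p1174.down <|
  CovA.nil

theorem cov30_1 : CovA par 30 224837730274641461248 :=
  CovA.stepX p1215.down <|
  CovA.stepX p1216.down <|
  CovA.stepX p1217.down <|
  CovA.stepX p1218.down <|
  CovA.stepX p1219.down <|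
  CovA.stepX p1220.down <|
  CovA.stepX p1221.down <|
  CovA.stepX p1222.down <|
  CovA.stepX p1223.down <|
  CovA.stepX p1224.down <|
  CovA.stepX p1225.down <|
  CovA.stepX p1226.down <|
  CovA.stepX p1227.down <|
  CovA.stepX p1228.down <|
  CovA.stepX p1229.down <|
  CovA.stepX p1230.down <|
  CovA.stepX p1231.down <|
  CovA.nil

theorem cov30 : CovA par 30 0 :=
  CovA.stepX p1175.down <|
  CovA.stepX p1176.down <|
  CovA.stepX p1177.down <|
  CovA.stepX p1178.down <|
  CovA.stepX p1179.down <|
  CovA.stepX p1180.down <|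
  CovA.stepX p1181.down <|
  CovA.stepX p1182.down <|
  CovA.stepX p1183.down <|
  CovA.stepX p1184.down <|
  CovA.stepX p1185.down <|
  CovA.stepX p1186.down <|
  CovA.stepX p1187.down <|
  CovA.stepX p1188.down <|
  CovA.stepX p1189.down <|
  CovA.stepX p1190.down <|
  CovA.stepX p1191.down <|
  CovA.stepX p1192.down <|
  CovA.stepX p1193.down <|
  CovA.stepX p1194.down <|
  CovA.stepX p1195.down <|
  CovA.stepX p1196.down <|
  CovA.stepX p1197.down <|
  CovA.stepX p1198.down <|
  CovA.stepX p1199.down <|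
  CovA.stepX p1200.down <|
  CovA.stepX p1201.down <|
  CovA.stepX p1202.down <|
  CovA.stepX p1203.down <|
  CovA.stepX p1204.down <|
  CovA.stepX p1205.down <|
  CovA.stepX p1206.down <|
  CovA.stepX p1207.down <|
  CovA.stepX p1208.down <|
  CovA.stepX p1209.down <|
  CovA.stepX p1210.down <|
  CovA.stepX p1211.down <|
  CovA.stepX p1212.down <|
  CovA.stepX p1213.down <|
  CovA.stepX p1214.down <|
  cov30_1

theorem cov31 : CovA par 31 0 :=
  CovA.stepX p1232.down <|
  CovA.stepX p1233.down <|
  CovA.stepX p1234.down <|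
  CovA.stepX p1235.down <|
  CovA.stepX p1236.down <|
  CovA.stepX p1237.down <|
  CovA.stepX p1238.down <|
  CovA.stepX p1239.down <|
  CovA.stepX p1240.down <|
  CovA.nil

theorem cov32 : CovA par 32 0 :=
  CovA.stepX p1241.down <|
  CovA.stepX p1242.down <|
  CovA.stepX p1243.down <|
  CovA.nil

theorem cov33 : CovA par 33 0 :=
  CovA.stepX p1244.down <|
  CovA.stepX p1245.down <|
  CovA.stepX p1246.down <|
  CovA.stepX p1247.down <|
  CovA.stepX p1248.down <|
  CovA.stepX p1249.down <|
  CovA.stepX p1250.down <|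
  CovA.stepX p1251.down <|
  CovA.stepX p1252.down <|
  CovA.stepX p1253.down <|
  CovA.stepX p1254.down <|
  CovA.stepX p1255.down <|
  CovA.stepX p1256.down <|
  CovA.stepX p1257.down <|
  CovA.stepX p1258.down <|
  CovA.stepX p1259.down <|
  CovA.stepX p1260.down <|
  CovA.stepX p1261.down <|
  CovA.nil

theorem cov34 : CovA par 34 0 :=
  CovA.stepX p1262.down <|
  CovA.stepX p1263.down <|
  CovA.stepX p1264.down <|
  CovA.stepX p1265.down <|
  CovA.stepX p1266.down <|
  CovA.stepX p1267.down <|
  CovA.stepX p1268.down <|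
  CovA.stepX p1269.down <|
  CovA.nil

theorem cov35 : CovA par 35 0 :=
  CovA.stepX p1270.down <|
  CovA.stepX p1271.down <|
  CovA.stepX p1272.down <|
  CovA.stepX p1273.down <|
  CovA.stepX p1274.down <|
  CovA.stepX p1275.down <|
  CovA.stepX p1276.down <|
  CovA.nil

theorem cov36 : CovA par 36 0 :=
  CovA.stepX p1277.down <|
  CovA.stepX p1278.down <|
  CovA.stepX p1279.down <|
  CovA.stepX p1280.down <|
  CovA.stepX p1281.down <|
  CovA.stepX p1282.down <|
  CovA.nil

theorem cov37 : CovA par 37 0 :=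
  CovA.stepX p1283.down <|
  CovA.stepX p1284.down <|
  CovA.stepX p1285.down <|
  CovA.stepX p1286.down <|
  CovA.stepX p1287.down <|
  CovA.nil

theorem cov38 : CovA par 38 0 :=
  CovA.stepX p1288.down <|
  CovA.stepX p1289.down <|
  CovA.stepX p1290.down <|
  CovA.stepX p1291.down <|
  CovA.stepX p1292.down <|
  CovA.nil

theorem cov39 : CovA par 39 0 :=
  CovA.stepX p1293.down <|
  CovA.stepX p1294.down <|
  CovA.stepX p1295.down <|
  CovA.stepX p1296.down <|
  CovA.stepX p1297.down <|
  CovA.stepX p1298.down <|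
  CovA.stepX p1299.down <|
  CovA.stepX p1300.down <|
  CovA.stepX p1301.down <|
  CovA.stepX p1302.down <|
  CovA.stepX p1303.down <|
  CovA.stepX p1304.down <|
  CovA.stepX p1305.down <|
  CovA.nil

theorem cov40_1 : CovA par 40 224838860433023565824 :=
  CovA.stepX p1346.down <|
  CovA.stepX p1347.down <|
  CovA.stepX p1348.down <|
  CovA.stepX p1349.down <|
  CovA.stepX p1350.down <|
  CovA.stepX p1351.down <|
  CovA.stepX p1352.down <|
  CovA.stepX p1353.down <|
  CovA.stepX p1354.down <|
  CovA.stepX p1355.down <|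
  CovA.stepX p1356.down <|
  CovA.nil

theorem cov40 : CovA par 40 0 :=
  CovA.stepX p1306.down <|
  CovA.stepX p1307.down <|
  CovA.stepX p1308.down <|
  CovA.stepX p1309.down <|
  CovA.stepX p1310.down <|
  CovA.stepX p1311.down <|
  CovA.stepX p1312.down <|
  CovA.stepX p1313.down <|
  CovA.stepX p1314.down <|
  CovA.stepX p1315.down <|
  CovA.stepX p1316.down <|
  CovA.stepX p1317.down <|
  CovA.stepX p1318.down <|
  CovA.stepX p1319.down <|
  CovA.stepX p1320.down <|
  CovA.stepX p1321.down <|
  CovA.stepX p1322.down <|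
  CovA.stepX p1323.down <|
  CovA.stepX p1324.down <|
  CovA.stepX p1325.down <|
  CovA.stepX p1326.down <|
  CovA.stepX p1327.down <|
  CovA.stepX p1328.down <|
  CovA.stepX p1329.down <|
  CovA.stepX p1330.down <|
  CovA.stepX p1331.down <|
  CovA.stepX p1332.down <|
  CovA.stepX p1333.down <|
  CovA.stepX p1334.down <|
  CovA.stepX p1335.down <|
  CovA.stepX p1336.down <|
  CovA.stepX p1337.down <|
  CovA.stepX p1338.down <|
  CovA.stepX p1339.down <|
  CovA.stepX p1340.down <|
  CovA.stepX p1341.down <|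
  CovA.stepX p1342.down <|
  CovA.stepX p1343.down <|
  CovA.stepX p1344.down <|
  CovA.stepX p1345.down <|
  cov40_1

theorem cov41 : CovA par 41 0 :=
  CovA.stepX p1357.down <|
  CovA.stepX p1358.down <|
  CovA.stepX p1359.down <|
  CovA.stepX p1360.down <|
  CovA.nil

theorem cov42 : CovA par 42 0 :=
  CovA.stepX p1361.down <|
  CovA.nil

theorem cov43 : CovA par 43 0 :=
  CovA.stepX p1362.down <|
  CovA.stepX p1363.down <|
  CovA.stepX p1364.down <|
  CovA.stepX p1365.down <|
  CovA.stepX p1366.down <|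
  CovA.stepX p1367.down <|
  CovA.stepX p1368.down <|
  CovA.stepX p1369.down <|
  CovA.stepX p1370.down <|
  CovA.stepX p1371.down <|
  CovA.stepX p1372.down <|
  CovA.stepX p1373.down <|
  CovA.stepX p1374.down <|
  CovA.stepX p1375.down <|
  CovA.stepX p1376.down <|
  CovA.stepX p1377.down <|
  CovA.nil

theorem cov44 : CovA par 44 0 :=
  CovA.stepX p1378.down <|
  CovA.stepX p1379.down <|
  CovA.stepX p1380.down <|
  CovA.stepX p1381.down <|
  CovA.stepX p1382.down <|
  CovA.stepX p1383.down <|
  CovA.stepX p1384.down <|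
  CovA.nil

theorem cov45 : CovA par 45 0 :=
  CovA.stepX p1385.down <|
  CovA.stepX p1386.down <|
  CovA.stepX p1387.down <|
  CovA.stepX p1388.down <|
  CovA.stepX p1389.down <|
  CovA.stepX p1390.down <|
  CovA.stepX p1391.down <|
  CovA.nil

theorem cov46 : CovA par 46 0 :=
  CovA.stepX p1392.down <|
  CovA.stepX p1393.down <|
  CovA.stepX p1394.down <|
  CovA.stepX p1395.down <|
  CovA.stepX p1396.down <|
  CovA.nil

theorem cov47 : CovA par 47 0 :=
  CovA.stepX p1397.down <|
  CovA.stepX p1398.down <|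
  CovA.stepX p1399.down <|
  CovA.stepX p1400.down <|
  CovA.stepX p1401.down <|
  CovA.nil

theorem cov48 : CovA par 48 0 :=
  CovA.stepX p1402.down <|
  CovA.stepX p1403.down <|
  CovA.stepX p1404.down <|
  CovA.stepX p1405.down <|
  CovA.stepX p1406.down <|
  CovA.nil

theorem cov49 : CovA par 49 0 :=
  CovA.stepX p1407.down <|
  CovA.stepX p1408.down <|
  CovA.stepX p1409.down <|
  CovA.stepX p1410.down <|
  CovA.stepX p1411.down <|
  CovA.stepX p1412.down <|
  CovA.stepX p1413.down <|
  CovA.stepX p1414.down <|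
  CovA.stepX p1415.down <|
  CovA.stepX p1416.down <|
  CovA.stepX p1417.down <|
  CovA.stepX p1418.down <|
  CovA.nil

theorem cov50_1 : CovA par 50 224839133176314986496 :=
  CovA.stepX p1459.down <|
  CovA.stepX p1460.down <|
  CovA.stepX p1461.down <|
  CovA.stepX p1462.down <|
  CovA.stepX p1463.down <|
  CovA.nil

theorem cov50 : CovA par 50 0 :=
  CovA.stepX p1419.down <|
  CovA.stepX p1420.down <|
  CovA.stepX p1421.down <|
  CovA.stepX p1422.down <|
  CovA.stepX p1423.down <|
  CovA.stepX p1424.down <|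
  CovA.stepX p1425.down <|
  CovA.stepX p1426.down <|
  CovA.stepX p1427.down <|
  CovA.stepX p1428.down <|
  CovA.stepX p1429.down <|
  CovA.stepX p1430.down <|
  CovA.stepX p1431.down <|
  CovA.stepX p1432.down <|
  CovA.stepX p1433.down <|
  CovA.stepX p1434.down <|
  CovA.stepX p1435.down <|
  CovA.stepX p1436.down <|
  CovA.stepX p1437.down <|
  CovA.stepX p1438.down <|
  CovA.stepX p1439.down <|
  CovA.stepX p1440.down <|
  CovA.stepX p1441.down <|
  CovA.stepX p1442.down <|
  CovA.stepX p1443.down <|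
  CovA.stepX p1444.down <|
  CovA.stepX p1445.down <|
  CovA.stepX p1446.down <|
  CovA.stepX p1447.down <|
  CovA.stepX p1448.down <|
  CovA.stepX p1449.down <|
  CovA.stepX p1450.down <|
  CovA.stepX p1451.down <|
  CovA.stepX p1452.down <|
  CovA.stepX p1453.down <|
  CovA.stepX p1454.down <|
  CovA.stepX p1455.down <|
  CovA.stepX p1456.down <|
  CovA.stepX p1457.down <|
  CovA.stepX p1458.down <|
  cov50_1

theorem cov51 : CovA par 51 0 :=
  CovA.stepX p1464.down <|
  CovA.stepX p1465.down <|
  CovA.nil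

theorem cov52 : CovA par 52 0 :=
  CovA.stepX p1466.down <|
  CovA.nil

theorem cov53 : CovA par 53 0 :=
  CovA.stepX p1467.down <|
  CovA.stepX p1468.down <|
  CovA.stepX p1469.down <|
  CovA.stepX p1470.down <|
  CovA.stepX p1471.down <|
  CovA.stepX p1472.down <|
  CovA.stepX p1473.down <|
  CovA.stepX p1474.down <|
  CovA.stepX p1475.down <|
  CovA.stepX p1476.down <|
  CovA.stepX p1477.down <|
  CovA.stepX p1478.down <|
  CovA.stepX p1479.down <|
  CovA.stepX p1480.down <|
  CovA.nil

theorem cov54 : CovA par 54 0 :=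
  CovA.stepX p1481.down <|
  CovA.stepX p1482.down <|
  CovA.stepX p1483.down <|
  CovA.stepX p1484.down <|
  CovA.stepX p1485.down <|
  CovA.stepX p1486.down <|
  CovA.nil

theorem cov55 : CovA par 55 0 :=
  CovA.stepX p1487.down <|
  CovA.stepX p1488.down <|
  CovA.stepX p1489.down <|
  CovA.stepX p1490.down <|
  CovA.stepX p1491.down <|
  CovA.nil

theorem cov56 : CovA par 56 0 :=
  CovA.stepX p1492.down <|
  CovA.stepX p1493.down <|
  CovA.stepX p1494.down <|
  CovA.stepX p1495.down <|
  CovA.stepX p1496.down <|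
  CovA.nil

theorem cov57 : CovA par 57 0 :=
  CovA.stepX p1497.down <|
  CovA.stepX p1498.down <|
  CovA.stepX p1499.down <|
  CovA.stepX p1500.down <|
  CovA.nil

theorem cov58 : CovA par 58 0 :=
  CovA.stepX p1501.down <|
  CovA.stepX p1502.down <|
  CovA.stepX p1503.down <|
  CovA.stepX p1504.down <|
  CovA.nil

theorem cov59 : CovA par 59 0 :=
  CovA.stepX p1505.down <|
  CovA.stepX p1506.down <|
  CovA.stepX p1507.down <|
  CovA.stepX p1508.down <|
  CovA.stepX p1509.down <|
  CovA.stepX p1510.down <|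
  CovA.stepX p1511.down <|
  CovA.stepX p1512.down <|
  CovA.stepX p1513.down <|
  CovA.stepX p1514.down <|
  CovA.stepX p1515.down <|
  CovA.nil

theorem cov60 : CovA par 60 0 :=
  CovA.stepX p1516.down <|
  CovA.stepX p1517.down <|
  CovA.stepX p1518.down <|
  CovA.stepX p1519.down <|
  CovA.stepX p1520.down <|
  CovA.stepX p1521.down <|
  CovA.stepX p1522.down <|
  CovA.stepX p1523.down <|
  CovA.stepX p1524.down <|
  CovA.stepX p1525.down <|
  CovA.stepX p1526.down <|
  CovA.stepX p1527.down <|
  CovA.stepX p1528.down <|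
  CovA.stepX p1529.down <|
  CovA.stepX p1530.down <|
  CovA.stepX p1531.down <|
  CovA.stepX p1532.down <|
  CovA.stepX p1533.down <|
  CovA.stepX p1534.down <|
  CovA.stepX p1535.down <|
  CovA.stepX p1536.down <|
  CovA.stepX p1537.down <|
  CovA.stepX p1538.down <|
  CovA.stepX p1539.down <|
  CovA.stepX p1540.down <|
  CovA.stepX p1541.down <|
  CovA.stepX p1542.down <|
  CovA.stepX p1543.down <|
  CovA.stepX p1544.down <|
  CovA.stepX p1545.down <|
  CovA.stepX p1546.down <|
  CovA.stepX p1547.down <|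
  CovA.stepX p1548.down <|
  CovA.stepX p1549.down <|
  CovA.stepX p1550.down <|
  CovA.stepX p1551.down <|
  CovA.stepX p1552.down <|
  CovA.stepX p1553.down <|
  CovA.nil

theorem cov61 : CovA par 61 0 :=
  CovA.stepX p1554.down <|
  CovA.stepX p1555.down <|
  CovA.nil

theorem cov62 : CovA par 62 0 :=
  CovA.stepX p1556.down <|
  CovA.nil

theorem cov63 : CovA par 63 0 :=
  CovA.stepX p1557.down <|
  CovA.stepX p1558.down <|
  CovA.stepX p1559.down <|
  CovA.stepX p1560.down <|
  CovA.stepX p1561.down <|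
  CovA.stepX p1562.down <|
  CovA.stepX p1563.down <|
  CovA.stepX p1564.down <|
  CovA.stepX p1565.down <|
  CovA.stepX p1566.down <|
  CovA.stepX p1567.down <|
  CovA.stepX p1568.down <|
  CovA.nil

theorem cov64 : CovA par 64 0 :=
  CovA.stepX p1569.down <|
  CovA.stepX p1570.down <|
  CovA.stepX p1571.down <|
  CovA.stepX p1572.down <|
  CovA.stepX p1573.down <|
  CovA.nil

theorem cov65 : CovA par 65 0 :=
  CovA.stepX p1574.down <|
  CovA.stepX p1575.down <|
  CovA.stepX p1576.down <|
  CovA.stepX p1577.down <|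
  CovA.stepX p1578.down <|
  CovA.nil

theorem cov66 : CovA par 66 0 :=
  CovA.stepX p1579.down <|
  CovA.stepX p1580.down <|
  CovA.stepX p1581.down <|
  CovA.stepX p1582.down <|
  CovA.stepX p1583.down <|
  CovA.nil

theorem cov67 : CovA par 67 0 :=
  CovA.stepX p1584.down <|
  CovA.stepX p1585.down <|
  CovA.stepX p1586.down <|
  CovA.nil

theorem cov68 : CovA par 68 0 :=
  CovA.stepX p1587.down <|
  CovA.stepX p1588.down <|
  CovA.stepX p1589.down <|
  CovA.nil

theorem cov69 : CovA par 69 0 :=
  CovA.stepX p1590.down <|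
  CovA.stepX p1591.down <|
  CovA.stepX p1592.down <|
  CovA.stepX p1593.down <|
  CovA.stepX p1594.down <|
  CovA.stepX p1595.down <|
  CovA.stepX p1596.down <|
  CovA.stepX p1597.down <|
  CovA.stepX p1598.down <|
  CovA.stepX p1599.down <|
  CovA.nil

theorem cov70 : CovA par 70 0 :=
  CovA.stepX p1600.down <|
  CovA.stepX p1601.down <|
  CovA.stepX p1602.down <|
  CovA.stepX p1603.down <|
  CovA.stepX p1604.down <|
  CovA.stepX p1605.down <|
  CovA.stepX p1606.down <|
  CovA.stepX p1607.down <|
  CovA.stepX p1608.down <|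
  CovA.stepX p1609.down <|
  CovA.stepX p1610.down <|
  CovA.stepX p1611.down <|
  CovA.stepX p1612.down <|
  CovA.stepX p1613.down <|
  CovA.stepX p1614.down <|
  CovA.stepX p1615.down <|
  CovA.stepX p1616.down <|
  CovA.stepX p1617.down <|
  CovA.stepX p1618.down <|
  CovA.stepX p1619.down <|
  CovA.stepX p1620.down <|
  CovA.stepX p1621.down <|
  CovA.stepX p1622.down <|
  CovA.nil

theorem cov71 : CovA par 71 0 :=
  CovA.stepX p1623.down <|
  CovA.nil

theorem cov72 : CovA par 72 0 :=
  CovA.stepX p1624.down <|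
  CovA.nil

theorem cov73 : CovA par 73 0 :=
  CovA.stepX p1625.down <|
  CovA.stepX p1626.down <|
  CovA.stepX p1627.down <|
  CovA.stepX p1628.down <|
  CovA.stepX p1629.down <|
  CovA.stepX p1630.down <|
  CovA.stepX p1631.down <|
  CovA.stepX p1632.down <|
  CovA.stepX p1633.down <|
  CovA.stepX p1634.down <|
  CovA.stepX p1635.down <|
  CovA.nil

theorem cov74 : CovA par 74 0 :=
  CovA.stepX p1636.down <|
  CovA.stepX p1637.down <|
  CovA.stepX p1638.down <|
  CovA.stepX p1639.down <|
  CovA.stepX p1640.down <|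
  CovA.stepX p1641.down <|
  CovA.nil

theorem cov75 : CovA par 75 0 :=
  CovA.stepX p1642.down <|
  CovA.stepX p1643.down <|
  CovA.stepX p1644.down <|
  CovA.stepX p1645.down <|
  CovA.stepX p1646.down <|
  CovA.nil

theorem cov76 : CovA par 76 0 :=
  CovA.stepX p1647.down <|
  CovA.stepX p1648.down <|
  CovA.stepX p1649.down <|
  CovA.stepX p1650.down <|
  CovA.nil

theorem cov77 : CovA par 77 0 :=
  CovA.stepX p1651.down <|
  CovA.stepX p1652.down <|
  CovA.stepX p1653.down <|
  CovA.nil

theorem cov78 : CovA par 78 0 :=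
  CovA.stepX p1654.down <|
  CovA.stepX p1655.down <|
  CovA.nil

theorem cov79 : CovA par 79 0 :=
  CovA.stepX p1656.down <|
  CovA.stepX p1657.down <|
  CovA.stepX p1658.down <|
  CovA.stepX p1659.down <|
  CovA.stepX p1660.down <|
  CovA.stepX p1661.down <|
  CovA.stepX p1662.down <|
  CovA.stepX p1663.down <|
  CovA.stepX p1664.down <|
  CovA.nil

theorem cov80_1 : CovA par 80 224838855968389353861 :=
  CovA.stepX p1709.down <|
  CovA.stepX p1710.down <|
  CovA.stepX p1711.down <|
  CovA.stepX p1712.down <|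
  CovA.stepX p1713.down <|
  CovA.stepX p1714.down <|
  CovA.part (Part.step (r := 2) (chkX_E p1717.down) (by decide +kernel) (Part.step (r := 1) (chkX_E p1716.down) (by decide +kernel) (Part.step (r := 0) (chkX_E p1715.down) (by decide +kernel) Part.nil))) <|
  CovA.stepX p1718.down <|
  CovA.stepX p1719.down <|
  CovA.stepX p1720.down <|
  CovA.stepX p1721.down <|
  CovA.stepX p1722.down <|
  CovA.stepX p1723.down <|
  CovA.stepX p1724.down <|
  CovA.stepX p1725.down <|
  CovA.stepX p1726.down <|
  CovA.stepX p1727.down <|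
  CovA.stepX p1728.down <|
  CovA.nil

theorem cov80 : CovA par 80 0 :=
  CovA.stepX p1665.down <|
  CovA.stepX p1666.down <|
  CovA.stepX p1667.down <|
  CovA.stepX p1668.down <|
  CovA.stepX p1669.down <|
  CovA.part (Part.step (r := 5) (chkX_E p1673.down) (by decide +kernel) (Part.step (r := 2) (chkX_E p1672.down) (by decide +kernel) (Part.step (r := 1) (chkX_E p1671.down) (by decide +kernel) (Part.step (r := 0) (chkX_E p1670.down) (by decide +kernel) Part.nil)))) <|
  CovA.stepX p1674.down <|
  CovA.stepX p1675.down <|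
  CovA.stepX p1676.down <|
  CovA.stepX p1677.down <|
  CovA.stepX p1678.down <|
  CovA.stepX p1679.down <|
  CovA.stepX p1680.down <|
  CovA.stepX p1681.down <|
  CovA.stepX p1682.down <|
  CovA.part (Part.step (r := 2) (chkX_E p1684.down) (by decide +kernel) (Part.step (r := 0) (chkX_E p1683.down) (by decide +kernel) Part.nil)) <|
  CovA.stepX p1685.down <|
  CovA.stepX p1686.down <|
  CovA.stepX p1687.down <|
  CovA.stepX p1688.down <|
  CovA.stepX p1689.down <|
  CovA.stepX p1690.down <|
  CovA.stepX p1691.down <|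
  CovA.stepX p1692.down <|
  CovA.stepX p1693.down <|
  CovA.stepX p1694.down <|
  CovA.stepX p1695.down <|
  CovA.stepX p1696.down <|
  CovA.stepX p1697.down <|
  CovA.stepX p1698.down <|
  CovA.stepX p1699.down <|
  CovA.stepX p1700.down <|
  CovA.stepX p1701.down <|
  CovA.stepX p1702.down <|
  CovA.stepX p1703.down <|
  CovA.stepX p1704.down <|
  CovA.stepX p1705.down <|
  CovA.stepX p1706.down <|
  CovA.stepX p1707.down <|
  CovA.stepX p1708.down <|
  cov80_1

theorem cov81 : CovA par 81 0 :=
  CovA.stepX p1729.down <|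
  CovA.stepX p1730.down <|
  CovA.stepX p1731.down <|
  CovA.stepX p1732.down <|
  CovA.nil

theorem cov82 : CovA par 82 0 :=
  CovA.stepX p1733.down <|
  CovA.stepX p1734.down <|
  CovA.stepX p1735.down <|
  CovA.nil

theorem cov83 : CovA par 83 0 :=
  CovA.stepX p1736.down <|
  CovA.stepX p1737.down <|
  CovA.stepX p1738.down <|
  CovA.stepX p1739.down <|
  CovA.stepX p1740.down <|
  CovA.stepX p1741.down <|
  CovA.stepX p1742.down <|
  CovA.stepX p1743.down <|
  CovA.stepX p1744.down <|
  CovA.stepX p1745.down <|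
  CovA.part (Part.step (r := 2) (chkX_E p1748.down) (by decide +kernel) (Part.step (r := 1) (chkX_E p1747.down) (by decide +kernel) (Part.step (r := 0) (chkX_E p1746.down) (by decide +kernel) Part.nil))) <|
  CovA.stepX p1749.down <|
  CovA.stepX p1750.down <|
  CovA.stepX p1751.down <|
  CovA.stepX p1752.down <|
  CovA.stepX p1753.down <|
  CovA.stepX p1754.down <|
  CovA.stepX p1755.down <|
  CovA.stepX p1756.down <|
  CovA.stepX p1757.down <|
  CovA.stepX p1758.down <|
  CovA.stepX p1759.down <|
  CovA.stepX p1760.down <|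
  CovA.stepX p1761.down <|
  CovA.stepX p1762.down <|
  CovA.stepX p1763.down <|
  CovA.stepX p1764.down <|
  CovA.stepX p1765.down <|
  CovA.stepX p1766.down <|
  CovA.stepX p1767.down <|
  CovA.stepX p1768.down <|
  CovA.stepX p1769.down <|
  CovA.stepX p1770.down <|
  CovA.stepX p1771.down <|
  CovA.nil

theorem cov84 : CovA par 84 0 :=
  CovA.stepX p1772.down <|
  CovA.stepX p1773.down <|
  CovA.stepX p1774.down <|
  CovA.stepX p1775.down <|
  CovA.stepX p1776.down <|
  CovA.stepX p1777.down <|
  CovA.stepX p1778.down <|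
  CovA.stepX p1779.down <|
  CovA.stepX p1780.down <|
  CovA.stepX p1781.down <|
  CovA.stepX p1782.down <|
  CovA.stepX p1783.down <|
  CovA.stepX p1784.down <|
  CovA.stepX p1785.down <|
  CovA.nil

theorem cov85 : CovA par 85 0 :=
  CovA.stepX p1786.down <|
  CovA.stepX p1787.down <|
  CovA.stepX p1788.down <|
  CovA.stepX p1789.down <|
  CovA.stepX p1790.down <|
  CovA.stepX p1791.down <|
  CovA.stepX p1792.down <|
  CovA.stepX p1793.down <|
  CovA.stepX p1794.down <|
  CovA.stepX p1795.down <|
  CovA.stepX p1796.down <|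
  CovA.nil

theorem cov86 : CovA par 86 0 :=
  CovA.stepX p1797.down <|
  CovA.stepX p1798.down <|
  CovA.stepX p1799.down <|
  CovA.stepX p1800.down <|
  CovA.stepX p1801.down <|
  CovA.stepX p1802.down <|
  CovA.stepX p1803.down <|
  CovA.stepX p1804.down <|
  CovA.nil

theorem cov87 : CovA par 87 0 :=
  CovA.stepX p1805.down <|
  CovA.stepX p1806.down <|
  CovA.stepX p1807.down <|
  CovA.stepX p1808.down <|
  CovA.stepX p1809.down <|
  CovA.stepX p1810.down <|
  CovA.nil

theorem cov88 : CovA par 88 0 :=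
  CovA.stepX p1811.down <|
  CovA.stepX p1812.down <|
  CovA.stepX p1813.down <|
  CovA.stepX p1814.down <|
  CovA.stepX p1815.down <|
  CovA.stepX p1816.down <|
  CovA.nil

theorem cov89_1 : CovA par 89 224892617687901159877 :=
  CovA.stepX p1857.down <|
  CovA.stepX p1858.down <|
  CovA.stepX p1859.down <|
  CovA.stepX p1860.down <|
  CovA.stepX p1861.down <|
  CovA.stepX p1862.down <|
  CovA.stepX p1863.down <|
  CovA.nil

theorem cov89 : CovA par 89 0 :=
  CovA.stepX p1817.down <|
  CovA.stepX p1818.down <|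
  CovA.stepX p1819.down <|
  CovA.stepX p1820.down <|
  CovA.stepX p1821.down <|
  CovA.stepX p1822.down <|
  CovA.stepX p1823.down <|
  CovA.stepX p1824.down <|
  CovA.stepX p1825.down <|
  CovA.stepX p1826.down <|
  CovA.stepX p1827.down <|
  CovA.stepX p1828.down <|
  CovA.stepX p1829.down <|
  CovA.stepX p1830.down <|
  CovA.stepX p1831.down <|
  CovA.stepX p1832.down <|
  CovA.stepX p1833.down <|
  CovA.stepX p1834.down <|
  CovA.stepX p1835.down <|
  CovA.stepX p1836.down <|
  CovA.stepX p1837.down <|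
  CovA.stepX p1838.down <|
  CovA.stepX p1839.down <|
  CovA.stepX p1840.down <|
  CovA.stepX p1841.down <|
  CovA.stepX p1842.down <|
  CovA.stepX p1843.down <|
  CovA.stepX p1844.down <|
  CovA.stepX p1845.down <|
  CovA.stepX p1846.down <|
  CovA.stepX p1847.down <|
  CovA.stepX p1848.down <|
  CovA.stepX p1849.down <|
  CovA.stepX p1850.down <|
  CovA.stepX p1851.down <|
  CovA.stepX p1852.down <|
  CovA.stepX p1853.down <|
  CovA.stepX p1854.down <|
  CovA.stepX p1855.down <|
  CovA.stepX p1856.down <|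
  cov89_1

theorem cov : ∀ c < 90, CovA par c 0 := by
  intro c hc
  interval_cases c
  exacts [
    cov0, cov1, cov2, cov3, cov4, cov5, cov6, cov7, cov8, cov9, cov10, cov11, cov12, cov13,
    cov14, cov15, cov16, cov17, cov18, cov19, cov20, cov21, cov22, cov23, cov24, cov25, cov26,
    cov27, cov28, cov29, cov30, cov31, cov32, cov33, cov34, cov35, cov36, cov37, cov38, cov39,
    cov40, cov41, cov42, cov43, cov44, cov45, cov46, cov47, cov48, cov49, cov50, cov51, cov52,
    cov53, cov54, cov55, cov56, cov57, cov58, cov59, cov60, cov61, cov62, cov63, cov64, cov65,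
    cov66, cov67, cov68, cov69, cov70, cov71, cov72, cov73, cov74, cov75, cov76, cov77, cov78,
    cov79, cov80, cov81, cov82, cov83, cov84, cov85, cov86, cov87, cov88, cov89]

theorem tp : ∀ z < 2, ∀ cl < 10, chkPs3 par z cl = true := by
  intro z hz cl hc
  interval_cases z <;> interval_cases cl
  exacts [
    tp0_0.down, tp0_1.down, tp0_2.down, tp0_3.down, tp0_4.down, tp0_5.down, tp0_6.down,
    tp0_7.down, tp0_8.down, tp0_9.down, tp1_0.down, tp1_1.down, tp1_2.down, tp1_3.down,
    tp1_4.down, tp1_5.down, tp1_6.down, tp1_7.down, tp1_8.down, tp1_9.down]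

theorem tw : ∀ z < 2, ∀ cl < 10, chkW3 par z cl = true := by
  intro z hz cl hc
  interval_cases z <;> interval_cases cl
  exacts [
    tw0_0.down, tw0_1.down, tw0_2.down, tw0_3.down, tw0_4.down, tw0_5.down, tw0_6.down,
    tw0_7.down, tw0_8.down, tw0_9.down, tw1_0.down, tw1_1.down, tw1_2.down, tw1_3.down,
    tw1_4.down, tw1_5.down, tw1_6.down, tw1_7.down, tw1_8.down, tw1_9.down]

theorem td : ∀ e < 9, chkD3 par e = true := by
  intro e he
  interval_cases e
  exacts [
    td0.down, td1.down, td2.down, td3.down, td4.down, td5.down, td6.down, td7.down, td8.down]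

theorem cert : CertE par := ⟨⟨tp, tw, td, ts.down⟩, cov⟩

theorem inst (r2 : ℕ) : ∀ n, 22 ≤ n → ∀ L d, Fn.SH n 8 r2 L d → Fn.Cyc n L :=
  Fn.LD.inst cert l0.down l1.down l2.down l3.down l4.down l5.down l6.down l7.down
    fun h => absurd h (by decide)

end Pool.Agent.Work.MP_7cb3ca_co.I8
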